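import Pool.Agent.Helper20.PC.Defs

/-!
# HOPF-BR4: change of the second Euclidean space by a linear isometry
-/

open Filter Metric Module Set
open scoped Topology ContDiff RealInnerProductSpace Manifold

set_option maxSynthPendingDepth 3

namespace Pool.Agent.Helper64.HP
open Pool.Agent.Helper20.PC

/-! ### naturality of the curvature under linear equivalences -/

section lin
variable {F F' : Type*} [NormedAddCommGroup F] [NormedSpace ℝ F] [NormedAddCommGroup F']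
  [NormedSpace ℝ F']

/-- precomposition of functionals. -/
noncomputable def preE (Φ : F' ≃L[ℝ] F) : (F →L[ℝ] ℝ) ≃L[ℝ] (F' →L[ℝ] ℝ) :=
  Φ.symm.arrowCongr (ContinuousLinearEquiv.refl ℝ ℝ)

/-- precomposition of bilinear forms. -/
noncomputable def preB (Φ : F' ≃L[ℝ] F) :
    (F →L[ℝ] F →L[ℝ] ℝ) ≃L[ℝ] (F' →L[ℝ] F' →L[ℝ] ℝ) :=
  Φ.symm.arrowCongr (preE Φ)

@[simp] lemma preE_apply (Φ : F' ≃L[ℝ] F) (f : F →L[ℝ] ℝ) (u : F') : preE Φ f u = f (Φ u) := by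
  simp [preE]

lemma preB_apply1 (Φ : F' ≃L[ℝ] F) (B : F →L[ℝ] F →L[ℝ] ℝ) (u : F') :
    preB Φ B u = preE Φ (B (Φ u)) := by
  simp [preB]

@[simp] lemma preB_apply (Φ : F' ≃L[ℝ] F) (B : F →L[ℝ] F →L[ℝ] ℝ) (u v : F') :
    preB Φ B u v = B (Φ u) (Φ v) := by
  rw [preB_apply1, preE_apply]

/-- the pullback of a metric by a linear equivalence. -/
noncomputable def pull (Φ : F' ≃L[ℝ] F) (G : F → F →L[ℝ] F →L[ℝ] ℝ) (z : F') :
    F' →L[ℝ] F' →L[ℝ] ℝ := preB Φ (G (Φ z))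

variable (Φ : F' ≃L[ℝ] F) (G : F → F →L[ℝ] F →L[ℝ] ℝ)

lemma chr_pull (z u v : F') : chr (pull Φ G) z u v = preE Φ (chr G (Φ z) (Φ u) (Φ v)) := by
  have h1 : ∀ w, (fun z' => pull Φ G z' w) = preE Φ ∘ ((fun y => G y (Φ w)) ∘ Φ) := by
    intro w
    funext z'
    simp [pull, preB_apply1]
  have h2 : (fun z' => pull Φ G z' u v) = (fun y => G y (Φ u) (Φ v)) ∘ Φ := by
    funext z'
    simp [pull]
  ext w
  rw [chr, chr, h1, h1, h2, ContinuousLinearEquiv.comp_fderiv, ContinuousLinearEquiv.comp_fderiv,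
    ContinuousLinearEquiv.comp_right_fderiv, ContinuousLinearEquiv.comp_right_fderiv,
    ContinuousLinearEquiv.comp_right_fderiv]
  simp

lemma inverse_preB (B : F →L[ℝ] F →L[ℝ] ℝ) (f : F →L[ℝ] ℝ) :
    (preB Φ B).inverse (preE Φ f) = Φ.symm (B.inverse f) := by
  have h : preB Φ B = (preE Φ : (F →L[ℝ] ℝ) →L[ℝ] (F' →L[ℝ] ℝ)) ∘L (B ∘L (Φ : F' →L[ℝ] F)) := by
    ext u v
    simp
  rw [h, ContinuousLinearMap.inverse_equiv_comp, ContinuousLinearMap.inverse_comp_equiv]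
  simp

lemma Gam_pull (z u v : F') : Gam (pull Φ G) z u v = Φ.symm (Gam G (Φ z) (Φ u) (Φ v)) := by
  rw [Gam, Gam, chr_pull, pull, inverse_preB]

lemma Riem_pull (z u v w : F') :
    Riem (pull Φ G) z u v w = Φ.symm (Riem G (Φ z) (Φ u) (Φ v) (Φ w)) := by
  have h1 : ∀ a b, (fun z' => Gam (pull Φ G) z' a b) = Φ.symm ∘ ((fun y => Gam G y (Φ a) (Φ b)) ∘ Φ) := by
    intro a b
    funext z'
    simp [Gam_pull]
  rw [Riem, Riem, h1, h1, ContinuousLinearEquiv.comp_fderiv, ContinuousLinearEquiv.comp_fderiv,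
    ContinuousLinearEquiv.comp_right_fderiv, ContinuousLinearEquiv.comp_right_fderiv]
  simp [Gam_pull]

lemma secCurv_pull (z u v : F') :
    secCurv (pull Φ G) z u v = secCurv G (Φ z) (Φ u) (Φ v) := by
  rw [secCurv, secCurv, Riem_pull]
  simp [pull]

end lin

section
variable {E₁ E₂ : Type} [NormedAddCommGroup E₁] [InnerProductSpace ℝ E₁] [FiniteDimensional ℝ E₁]
  [NormedAddCommGroup E₂] [InnerProductSpace ℝ E₂] [FiniteDimensional ℝ E₂]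
  {k l : ℕ} [Fact (finrank ℝ E₁ = k + 1)] [Fact (finrank ℝ E₂ = l + 1)]

variable {E₂' : Type} [NormedAddCommGroup E₂'] [InnerProductSpace ℝ E₂'] [FiniteDimensional ℝ E₂']
    [Fact (finrank ℝ E₂' = l + 1)] (L : E₂' ≃ₗᵢ[ℝ] E₂)

/-- the map induced on spheres. -/
def sphMap (y : sphere (0 : E₂') 1) : sphere (0 : E₂) 1 :=
  ⟨L y, by rw [mem_sphere_zero_iff_norm, L.norm_map]; exact mem_sphere_zero_iff_norm.1 y.2⟩

omit [FiniteDimensional ℝ E₂] [FiniteDimensional ℝ E₂'] [Fact (finrank ℝ E₂ = l + 1)]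
  [Fact (finrank ℝ E₂' = l + 1)] in
lemma toS_sphMap (y : sphere (0 : E₂') 1) (x : E₂') :
    toS (sphMap L y) (L x) = sphMap L (toS y x) := by
  by_cases hx : x = 0
  · subst hx
    simp [toS]
  · have hx' : L x ≠ 0 := by simpa using hx
    rw [toS, toS, dif_neg hx, dif_neg hx']
    apply Subtype.ext
    simp [sphMap]

omit [FiniteDimensional ℝ E₂] [FiniteDimensional ℝ E₂'] [Fact (finrank ℝ E₂ = l + 1)]
  [Fact (finrank ℝ E₂' = l + 1)] in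
lemma dl_L (x u : E₂') : dl (L x) (L u) = dl x u := by
  simp [dl]

omit [FiniteDimensional ℝ E₂] [FiniteDimensional ℝ E₂'] [Fact (finrank ℝ E₂ = l + 1)]
  [Fact (finrank ℝ E₂' = l + 1)] in
lemma dn_L (x u : E₂') : dn (L x) (L u) = L (dn x u) := by
  simp [dn, dl_L]

/-- the linear equivalence of the ambient spaces. -/
noncomputable def PhiL (E₁ : Type) [NormedAddCommGroup E₁] [InnerProductSpace ℝ E₁] (L : E₂' ≃ₗᵢ[ℝ] E₂) :
    (E₁ × E₂') ≃L[ℝ] (E₁ × E₂) :=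
  (ContinuousLinearEquiv.refl ℝ E₁).prodCongr L.toContinuousLinearEquiv

omit [FiniteDimensional ℝ E₁] [FiniteDimensional ℝ E₂] [FiniteDimensional ℝ E₂']
  [Fact (finrank ℝ E₁ = k + 1)] [Fact (finrank ℝ E₂ = l + 1)] [Fact (finrank ℝ E₂' = l + 1)] in
@[simp] lemma PhiL_apply (u : E₁ × E₂') : PhiL E₁ L u = (u.1, L u.2) := rfl

/-- the transferred metric. -/
noncomputable def gT (g : sphere (0 : E₁) 1 × sphere (0 : E₂) 1 → (E₁ × E₂) →L[ℝ] (E₁ × E₂) →L[ℝ] ℝ)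
    (p : sphere (0 : E₁) 1 × sphere (0 : E₂') 1) : (E₁ × E₂') →L[ℝ] (E₁ × E₂') →L[ℝ] ℝ :=
  preB (PhiL E₁ L) (g (p.1, sphMap L p.2))

omit [FiniteDimensional ℝ E₁] [FiniteDimensional ℝ E₂] [FiniteDimensional ℝ E₂']
  [Fact (finrank ℝ E₁ = k + 1)] [Fact (finrank ℝ E₂ = l + 1)] [Fact (finrank ℝ E₂' = l + 1)] in
lemma extM_gT (g : sphere (0 : E₁) 1 × sphere (0 : E₂) 1 → (E₁ × E₂) →L[ℝ] (E₁ × E₂) →L[ℝ] ℝ)
    (p : sphere (0 : E₁) 1 × sphere (0 : E₂') 1) :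
    extM p (gT L g) = pull (PhiL E₁ L) (extM (p.1, sphMap L p.2) g) := by
  funext z
  refine ContinuousLinearMap.ext fun u => ContinuousLinearMap.ext fun v => ?_
  rw [pull, preB_apply]
  simp only [extM, gT, _root_.add_apply, ContinuousLinearMap.smulRight_apply,
    ContinuousLinearMap.coe_comp, Function.comp_apply, ContinuousLinearMap.coe_fst',
    ContinuousLinearMap.coe_snd', PhiL_apply, dl_L, ContinuousLinearMap.bilinearComp_apply, preB_apply,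
    ContinuousLinearMap.coe_prodMap', Prod.map, dn_L, toS_sphMap, _root_.smul_apply]

set_option maxHeartbeats 400000 in
/-- smoothness of the transferred metric. -/
lemma contMDiff_gT (L : E₂' ≃ₗᵢ[ℝ] E₂)
    {g : sphere (0 : E₁) 1 × sphere (0 : E₂) 1 → (E₁ × E₂) →L[ℝ] (E₁ × E₂) →L[ℝ] ℝ}
    (h1 : ContMDiff ((𝓡 k).prod (𝓡 l)) 𝓘(ℝ, (E₁ × E₂) →L[ℝ] (E₁ × E₂) →L[ℝ] ℝ) ∞ g) :
    ContMDiff ((𝓡 k).prod (𝓡 l)) 𝓘(ℝ, (E₁ × E₂') →L[ℝ] (E₁ × E₂') →L[ℝ] ℝ) ∞ (gT L g) := by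
  have e0 : ContMDiff (𝓡 l) 𝓘(ℝ, E₂) ∞ (fun y : sphere (0 : E₂') 1 => L (y : E₂')) := by
    have e00 : ContDiff ℝ ∞ (fun y : E₂' => L y) := L.toContinuousLinearEquiv.contDiff
    exact (e00.contMDiff).comp contMDiff_coe_sphere
  have e1 : ContMDiff (𝓡 l) (𝓡 l) ∞ (sphMap L : sphere (0 : E₂') 1 → sphere (0 : E₂) 1) :=
    e0.codRestrict_sphere (fun y => (sphMap L y).2)
  have e2 : ContMDiff ((𝓡 k).prod (𝓡 l)) ((𝓡 k).prod (𝓡 l)) ∞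
      (fun p : sphere (0 : E₁) 1 × sphere (0 : E₂') 1 => (p.1, sphMap L p.2)) :=
    contMDiff_fst.prodMk (e1.comp contMDiff_snd)
  have e3 : ContMDiff ((𝓡 k).prod (𝓡 l)) 𝓘(ℝ, (E₁ × E₂) →L[ℝ] (E₁ × E₂) →L[ℝ] ℝ) ∞
      (fun p : sphere (0 : E₁) 1 × sphere (0 : E₂') 1 => g (p.1, sphMap L p.2)) := h1.comp e2
  have e4 : ContDiff ℝ ∞ (fun B : (E₁ × E₂) →L[ℝ] (E₁ × E₂) →L[ℝ] ℝ => preB (PhiL E₁ L) B) :=
    (preB (PhiL E₁ L)).contDiff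
  exact e4.contMDiff.comp e3

set_option maxHeartbeats 400000 in
theorem transfer (L : E₂' ≃ₗᵢ[ℝ] E₂)
    (h : ∃ g : sphere (0 : E₁) 1 × sphere (0 : E₂) 1 → (E₁ × E₂) →L[ℝ] (E₁ × E₂) →L[ℝ] ℝ,
      ContMDiff ((𝓡 k).prod (𝓡 l)) 𝓘(ℝ, (E₁ × E₂) →L[ℝ] (E₁ × E₂) →L[ℝ] ℝ) ∞ g ∧
      (∀ p u v, g p u v = g p v u) ∧
      (∀ (p : sphere (0 : E₁) 1 × sphere (0 : E₂) 1) (u : E₁ × E₂), ⟪(p.1 : E₁), u.1⟫ = 0 →
        ⟪(p.2 : E₂), u.2⟫ = 0 → u ≠ 0 → 0 < g p u u) ∧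
      ∀ (p : sphere (0 : E₁) 1 × sphere (0 : E₂) 1) (u v : E₁ × E₂),
        ⟪(p.1 : E₁), u.1⟫ = 0 → ⟪(p.2 : E₂), u.2⟫ = 0 → ⟪(p.1 : E₁), v.1⟫ = 0 → ⟪(p.2 : E₂), v.2⟫ = 0 →
        LinearIndependent ℝ ![u, v] → 0 < sectional g p u v) :
    ∃ g : sphere (0 : E₁) 1 × sphere (0 : E₂') 1 → (E₁ × E₂') →L[ℝ] (E₁ × E₂') →L[ℝ] ℝ,
      ContMDiff ((𝓡 k).prod (𝓡 l)) 𝓘(ℝ, (E₁ × E₂') →L[ℝ] (E₁ × E₂') →L[ℝ] ℝ) ∞ g ∧
      (∀ p u v, g p u v = g p v u) ∧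
      (∀ (p : sphere (0 : E₁) 1 × sphere (0 : E₂') 1) (u : E₁ × E₂'), ⟪(p.1 : E₁), u.1⟫ = 0 →
        ⟪(p.2 : E₂'), u.2⟫ = 0 → u ≠ 0 → 0 < g p u u) ∧
      ∀ (p : sphere (0 : E₁) 1 × sphere (0 : E₂') 1) (u v : E₁ × E₂'),
        ⟪(p.1 : E₁), u.1⟫ = 0 → ⟪(p.2 : E₂'), u.2⟫ = 0 → ⟪(p.1 : E₁), v.1⟫ = 0 → ⟪(p.2 : E₂'), v.2⟫ = 0 →
        LinearIndependent ℝ ![u, v] → 0 < sectional g p u v := by
  obtain ⟨g, h1, h2, h3, h4⟩ := h
  have hin : ∀ (y : sphere (0 : E₂') 1) (u : E₂'), ⟪(y : E₂'), u⟫ = 0 →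
      ⟪((sphMap L y : sphere (0 : E₂) 1) : E₂), L u⟫ = 0 := by
    intro y u hu
    simp only [sphMap, LinearIsometryEquiv.inner_map_map]
    exact hu
  refine ⟨gT L g, ?_, ?_, ?_, ?_⟩
  · exact contMDiff_gT L h1
  · intro p u v
    simp only [gT, preB_apply]
    exact h2 _ _ _
  · intro p u hu1 hu2 hu
    simp only [gT, preB_apply, PhiL_apply]
    refine h3 _ _ hu1 (hin _ _ hu2) ?_
    intro h0
    apply hu
    exact (PhiL E₁ L).injective (h0.trans (map_zero (PhiL E₁ L)).symm)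
  · intro p u v hu1 hu2 hv1 hv2 huv
    have e : sectional (gT L g) p u v
        = sectional g (p.1, sphMap L p.2) (PhiL E₁ L u) (PhiL E₁ L v) := by
      rw [sectional, extM_gT, secCurv_pull]
      rfl
    rw [e]
    refine h4 _ _ _ hu1 (hin _ _ hu2) hv1 (hin _ _ hv2) ?_
    rw [LinearIndependent.pair_iff] at huv ⊢
    intro s t hst
    apply huv s t
    apply (PhiL E₁ L).injective
    rw [map_add, map_smul, map_smul, map_zero]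
    exact hst

end

end Pool.Agent.Helper64.HP
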