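import Pool.Agent.Helper20.HP.Data2

/-!
# HOPF-T2: the key identity
-/

open Filter Metric Module Set
open scoped Topology ContDiff RealInnerProductSpace Manifold Quaternion

namespace Pool.Agent.Helper64.HP
open Pool.Agent.Helper20.PC Pool.Agent.Helper20.HP

/-! ### componentwise continuity of jets -/

structure CJ {α : Type*} [TopologicalSpace α] (J : α → J2) : Prop where
  a : Continuous fun p => (J p).a
  b : Continuous fun p => (J p).b
  c : Continuous fun p => (J p).c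

namespace CJ
variable {α : Type*} [TopologicalSpace α] {J K : α → J2}

lemma const (j : J2) : CJ (fun _ : α => j) := ⟨continuous_const, continuous_const, continuous_const⟩

lemma add (hJ : CJ J) (hK : CJ K) : CJ (fun p => J p + K p) :=
  ⟨hJ.a.add hK.a, hJ.b.add hK.b, hJ.c.add hK.c⟩

lemma sub (hJ : CJ J) (hK : CJ K) : CJ (fun p => J p - K p) :=
  ⟨hJ.a.sub hK.a, hJ.b.sub hK.b, hJ.c.sub hK.c⟩

lemma mul (hJ : CJ J) (hK : CJ K) : CJ (fun p => J p * K p) :=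
  ⟨hJ.a.mul hK.a, (hJ.a.mul hK.b).add (hJ.b.mul hK.a),
    ((hJ.a.mul hK.c).add (continuous_const.mul (hJ.b.mul hK.b))).add (hJ.c.mul hK.a)⟩

lemma smul (hJ : CJ J) {r : α → ℝ} (hr : Continuous r) : CJ (fun p => r p • J p) :=
  ⟨hr.mul hJ.a, hr.mul hJ.b, hr.mul hJ.c⟩

lemma pow (hJ : CJ J) (n : ℕ) : CJ (fun p => J p ^ n) := by
  induction n with
  | zero => simpa using const (1 : J2)
  | succ n ih => simpa [pow_succ] using ih.mul hJ

end CJ

/-! ### bilinear forms on `E3` -/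

def Fb (x y : E3) : ℝ := FbG (fun i => x i) (fun i => y i)

lemma Hb_add_left (x y z : E3) : Hb (x + y) z = Hb x z + Hb y z := by
  simp [Hb, HbG]; ring
lemma Hb_add_right (x y z : E3) : Hb x (y + z) = Hb x y + Hb x z := by
  simp [Hb, HbG]; ring
lemma Hb_smul_left (r : ℝ) (x y : E3) : Hb (r • x) y = r * Hb x y := by
  simp [Hb, HbG]; ring
lemma Hb_smul_right (r : ℝ) (x y : E3) : Hb x (r • y) = r * Hb x y := by
  simp [Hb, HbG]; ring
lemma Hb_comm (x y : E3) : Hb x y = Hb y x := by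
  simp [Hb, HbG]; ring
lemma Fb_add_left (x y z : E3) : Fb (x + y) z = Fb x z + Fb y z := by
  simp [Fb, FbG]; ring
lemma Fb_add_right (x y z : E3) : Fb x (y + z) = Fb x y + Fb x z := by
  simp [Fb, FbG]; ring
lemma Fb_smul_left (r : ℝ) (x y : E3) : Fb (r • x) y = r * Fb x y := by
  simp [Fb, FbG]; ring
lemma Fb_smul_right (r : ℝ) (x y : E3) : Fb x (r • y) = r * Fb x y := by
  simp [Fb, FbG]; ring
lemma Fb_comm (x y : E3) : Fb x y = Fb y x := by
  simp [Fb, FbG]; ring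

lemma continuous_Hb {α : Type*} [TopologicalSpace α] {u v : α → E3} (hu : Continuous u)
    (hv : Continuous v) : Continuous fun p => Hb (u p) (v p) := by
  unfold Hb HbG
  fun_prop

lemma continuous_Fb {α : Type*} [TopologicalSpace α] {u v : α → E3} (hu : Continuous u)
    (hv : Continuous v) : Continuous fun p => Fb (u p) (v p) := by
  unfold Fb FbG
  fun_prop

lemma continuous_cr {α : Type*} [TopologicalSpace α] {u v : α → E3} (hu : Continuous u)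
    (hv : Continuous v) : Continuous fun p => cr (u p) (v p) := by
  have : (fun p => cr (u p) (v p)) = fun p => crL (u p) (v p) := rfl
  rw [this]
  fun_prop

/-! ### expansions in `κ` -/

noncomputable def pp (x X : E3) : E3 := Hb x x • x + (2 * Hb x (cr x X)) • cr x X
noncomputable def a1 (x X : E3) : E3 := (-Hb x x) • X
noncomputable def a2 (x X : E3) : E3 := (-2 * Hb x X) • X + Hb x x • x + pp x X
noncomputable def a3 (x X : E3) : E3 := (2 * Hb x x * Hb x X) • X + (- Hb x x) • pp x X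
noncomputable def b1 (x X : E3) : E3 := (-2 * Hb x (cr x X)) • X
noncomputable def b2 (x X : E3) : E3 := (-2 * Hb X (cr x X)) • X + (2 * Hb x (cr x X)) • x
noncomputable def b3 (x X : E3) : E3 :=
  (2 * Hb x x * Hb X (cr x X) + 4 * Hb x (cr x X) * Hb x X) • X + (-2 * Hb x (cr x X)) • pp x X

lemma jx1_eq (κ : ℝ) (x X : E3) : jx1 κ x X = X + κ • a1 x X := by
  simp only [jx1, sg, a1]; module

lemma jX1_eq (κ : ℝ) (x X : E3) : jX1 κ x X = (-1 : ℝ) • x + κ • pp x X := by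
  simp only [jX1, sg, sgn, pp]; module

lemma js1_eq (κ : ℝ) (x X : E3) : js1 κ x X = -2 * κ * (1 - κ * Hb x x) * Hb x X := by
  simp only [js1, jx1, sg, Hb_smul_right]; ring

lemma jsn1_eq (κ : ℝ) (x X : E3) : jsn1 κ x X
    = κ * (-2 * Hb X (cr x X)) + κ ^ 2 * (2 * Hb x x * Hb X (cr x X) + 4 * Hb x (cr x X) * Hb x X) := by
  simp only [jsn1, jx1, jn1, sg, sgn, Hb_smul_right, Hb_smul_left]; ring

lemma jx2_eq (κ : ℝ) (x X : E3) :
    jx2 κ x X = (-1 : ℝ) • x + κ • a2 x X + κ ^ 2 • a3 x X := by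
  simp only [jx2, jX1_eq, js1_eq, sg, a2, a3]; module

lemma jn1_eq (κ : ℝ) (x X : E3) : jn1 κ x X = κ • b1 x X := by
  simp only [jn1, sgn, b1]; module

lemma jn2_eq (κ : ℝ) (x X : E3) : jn2 κ x X = κ • b2 x X + κ ^ 2 • b3 x X := by
  simp only [jn2, jX1_eq, jsn1_eq, sgn, b2, b3]; module

/-! ### the function `W` -/

noncomputable def BH (x X : E3) : ℝ := Hb x (b1 x X) + Hb (a1 x X) (cr x X)
noncomputable def BF (x X : E3) : ℝ := Fb x (b1 x X) + Fb (a1 x X) (cr x X)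
noncomputable def CH (x X : E3) : ℝ := Hb x (b2 x X) + 2 * Hb X (b1 x X) + Hb (a2 x X) (cr x X)
noncomputable def CF (x X : E3) : ℝ := Fb x (b2 x X) + 2 * Fb X (b1 x X) + Fb (a2 x X) (cr x X)
noncomputable def DH (x X : E3) : ℝ := Hb x (b3 x X) + 2 * Hb (a1 x X) (b1 x X) + Hb (a3 x X) (cr x X)
noncomputable def DF (x X : E3) : ℝ := Fb x (b3 x X) + 2 * Fb (a1 x X) (b1 x X) + Fb (a3 x X) (cr x X)

noncomputable def W1 (x X : E3) : ℝ :=
  2 * Fb (cr x X) (b3 x X) + 2 * Fb (b1 x X) (b1 x X)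
    + 2 * (Hb x (cr x X) * CF x X + 2 * (Hb X (cr x X) * BF x X + BH x X * Fb X (cr x X))
      + CH x X * Fb x (cr x X))
noncomputable def W2 (x X : E3) : ℝ :=
  2 * (Hb x (cr x X) * DF x X + 2 * (BH x X * BF x X) + DH x X * Fb x (cr x X))
noncomputable def W3 (κ : ℝ) (x X : E3) : ℝ := (PhG (Jx κ x X) (Jn κ x X) (Jn κ x X)).c

noncomputable def Wf (p : ℝ × E3 × E3) : ℝ := W1 p.2.1 p.2.2 + p.1 * W2 p.2.1 p.2.2 + W3 p.1 p.2.1 p.2.2

lemma HG_a (κ : ℝ) (x X : E3) : (HbG (Jx κ x X) (Jn κ x X)).a = Hb x (cr x X) := by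
  simp [HbG, Hb, Jx, Jn]

lemma HG_b (κ : ℝ) (x X : E3) :
    (HbG (Jx κ x X) (Jn κ x X)).b = Hb X (cr x X) + κ * BH x X := by
  have : (HbG (Jx κ x X) (Jn κ x X)).b = Hb x (jn1 κ x X) + Hb (jx1 κ x X) (cr x X) := by
    simp [HbG, Hb, Jx, Jn]; ring
  rw [this, jn1_eq, jx1_eq, BH, Hb_smul_right, Hb_add_left, Hb_smul_left]; ring

lemma HG_c (κ : ℝ) (x X : E3) :
    (HbG (Jx κ x X) (Jn κ x X)).c = - Hb x (cr x X) + κ * CH x X + κ ^ 2 * DH x X := by
  have : (HbG (Jx κ x X) (Jn κ x X)).c = Hb x (jn2 κ x X) + 2 * Hb (jx1 κ x X) (jn1 κ x X)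
      + Hb (jx2 κ x X) (cr x X) := by
    simp [HbG, Hb, Jx, Jn]; ring
  rw [this, jn1_eq, jx1_eq, jn2_eq, jx2_eq, CH, DH]
  simp only [Hb_smul_right, Hb_add_left, Hb_smul_left, Hb_add_right]; ring

lemma FG_a (κ : ℝ) (x X : E3) : (FbG (Jx κ x X) (Jn κ x X)).a = Fb x (cr x X) := by
  simp [FbG, Fb, Jx, Jn]

lemma FG_b (κ : ℝ) (x X : E3) :
    (FbG (Jx κ x X) (Jn κ x X)).b = Fb X (cr x X) + κ * BF x X := by
  have : (FbG (Jx κ x X) (Jn κ x X)).b = Fb x (jn1 κ x X) + Fb (jx1 κ x X) (cr x X) := by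
    simp [FbG, Fb, Jx, Jn]; ring
  rw [this, jn1_eq, jx1_eq, BF, Fb_smul_right, Fb_add_left, Fb_smul_left]; ring

lemma FG_c (κ : ℝ) (x X : E3) :
    (FbG (Jx κ x X) (Jn κ x X)).c = - Fb x (cr x X) + κ * CF x X + κ ^ 2 * DF x X := by
  have : (FbG (Jx κ x X) (Jn κ x X)).c = Fb x (jn2 κ x X) + 2 * Fb (jx1 κ x X) (jn1 κ x X)
      + Fb (jx2 κ x X) (cr x X) := by
    simp [FbG, Fb, Jx, Jn]; ring
  rw [this, jn1_eq, jx1_eq, jn2_eq, jx2_eq, CF, DF]
  simp only [Fb_smul_right, Fb_add_left, Fb_smul_left, Fb_add_right]; ring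

lemma FF_c (κ : ℝ) (x X : E3) :
    (FbG (Jn κ x X) (Jn κ x X)).c = 2 * κ * Fb (cr x X) (b2 x X)
      + κ ^ 2 * (2 * Fb (cr x X) (b3 x X) + 2 * Fb (b1 x X) (b1 x X)) := by
  have : (FbG (Jn κ x X) (Jn κ x X)).c = 2 * Fb (cr x X) (jn2 κ x X)
      + 2 * Fb (jn1 κ x X) (jn1 κ x X) := by
    simp [FbG, Fb, Jn]; ring
  rw [this, jn1_eq, jn2_eq]
  simp only [Fb_smul_right, Fb_smul_left, Fb_add_right]; ring

lemma QG_c (κ : ℝ) (x X : E3) : (QG κ (Jx κ x X) (Jn κ x X)).c = κ ^ 2 * Wf (κ, x, X) := by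
  have h1 : (QG κ (Jx κ x X) (Jn κ x X)).c = (FbG (Jn κ x X) (Jn κ x X)).c
      + 2 * κ * (HbG (Jx κ x X) (Jn κ x X) * FbG (Jx κ x X) (Jn κ x X)).c
      + κ ^ 2 * (PhG (Jx κ x X) (Jn κ x X) (Jn κ x X)).c := rfl
  have h2 : (HbG (Jx κ x X) (Jn κ x X) * FbG (Jx κ x X) (Jn κ x X)).c
      = (HbG (Jx κ x X) (Jn κ x X)).a * (FbG (Jx κ x X) (Jn κ x X)).c
        + 2 * ((HbG (Jx κ x X) (Jn κ x X)).b * (FbG (Jx κ x X) (Jn κ x X)).b)
        + (HbG (Jx κ x X) (Jn κ x X)).c * (FbG (Jx κ x X) (Jn κ x X)).a := rfl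
  have h3 : Fb (cr x X) (b2 x X)
      = -2 * Hb X (cr x X) * Fb X (cr x X) + 2 * Hb x (cr x X) * Fb x (cr x X) := by
    rw [b2, Fb_add_right, Fb_smul_right, Fb_smul_right, Fb_comm _ X, Fb_comm _ x]
  rw [h1, h2, HG_a, HG_b, HG_c, FG_a, FG_b, FG_c, FF_c, h3]
  simp only [Wf, W1, W2, W3]
  ring

/-! ### continuity -/

lemma continuous_pp {α : Type*} [TopologicalSpace α] {x X : α → E3} (hx : Continuous x)
    (hX : Continuous X) : Continuous fun p => pp (x p) (X p) := by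
  have h1 := continuous_Hb hx hx
  have h2 := continuous_Hb hx (continuous_cr hx hX)
  have h3 := continuous_cr hx hX
  unfold pp
  fun_prop

lemma continuous_a1 {α : Type*} [TopologicalSpace α] {x X : α → E3} (hx : Continuous x)
    (hX : Continuous X) : Continuous fun p => a1 (x p) (X p) := by
  have h1 := continuous_Hb hx hx
  unfold a1
  fun_prop

lemma continuous_a2 {α : Type*} [TopologicalSpace α] {x X : α → E3} (hx : Continuous x)
    (hX : Continuous X) : Continuous fun p => a2 (x p) (X p) := by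
  have h1 := continuous_Hb hx hx
  have h2 := continuous_Hb hx hX
  have h3 := continuous_pp hx hX
  unfold a2
  fun_prop

lemma continuous_a3 {α : Type*} [TopologicalSpace α] {x X : α → E3} (hx : Continuous x)
    (hX : Continuous X) : Continuous fun p => a3 (x p) (X p) := by
  have h1 := continuous_Hb hx hx
  have h2 := continuous_Hb hx hX
  have h3 := continuous_pp hx hX
  unfold a3
  fun_prop

lemma continuous_b1 {α : Type*} [TopologicalSpace α] {x X : α → E3} (hx : Continuous x)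
    (hX : Continuous X) : Continuous fun p => b1 (x p) (X p) := by
  have h2 := continuous_Hb hx (continuous_cr hx hX)
  unfold b1
  fun_prop

lemma continuous_b2 {α : Type*} [TopologicalSpace α] {x X : α → E3} (hx : Continuous x)
    (hX : Continuous X) : Continuous fun p => b2 (x p) (X p) := by
  have h1 := continuous_Hb hX (continuous_cr hx hX)
  have h2 := continuous_Hb hx (continuous_cr hx hX)
  unfold b2
  fun_prop

lemma continuous_b3 {α : Type*} [TopologicalSpace α] {x X : α → E3} (hx : Continuous x)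
    (hX : Continuous X) : Continuous fun p => b3 (x p) (X p) := by
  have h0 := continuous_Hb hx hx
  have h1 := continuous_Hb hX (continuous_cr hx hX)
  have h2 := continuous_Hb hx (continuous_cr hx hX)
  have h3 := continuous_Hb hx hX
  have h4 := continuous_pp hx hX
  unfold b3
  fun_prop

lemma continuous_coord {α : Type*} [TopologicalSpace α] {u : α → E3} (hu : Continuous u) (i : Fin 3) :
    Continuous fun p => u p i := by
  fun_prop

lemma cj_Jx {α : Type*} [TopologicalSpace α] {κ : α → ℝ} {x X : α → E3} (hκ : Continuous κ)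
    (hx : Continuous x) (hX : Continuous X) (i : Fin 3) : CJ fun p => Jx (κ p) (x p) (X p) i := by
  have h1 := continuous_a1 hx hX
  have h2 := continuous_a2 hx hX
  have h3 := continuous_a3 hx hX
  refine ⟨?_, ?_, ?_⟩
  · simp only [Jx]; fun_prop
  · simp only [Jx, jx1_eq]; fun_prop
  · simp only [Jx, jx2_eq]; fun_prop

lemma cj_Jn {α : Type*} [TopologicalSpace α] {κ : α → ℝ} {x X : α → E3} (hκ : Continuous κ)
    (hx : Continuous x) (hX : Continuous X) (i : Fin 3) : CJ fun p => Jn (κ p) (x p) (X p) i := by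
  have h0 := continuous_cr hx hX
  have h1 := continuous_b1 hx hX
  have h2 := continuous_b2 hx hX
  have h3 := continuous_b3 hx hX
  refine ⟨?_, ?_, ?_⟩
  · exact continuous_coord h0 i
  · simp only [Jn, jn1_eq]
    exact continuous_coord (hκ.smul h1) i
  · simp only [Jn, jn2_eq]
    exact continuous_coord ((hκ.smul h2).add ((hκ.pow 2).smul h3)) i

lemma cj_PhG {α : Type*} [TopologicalSpace α] {x a b : α → Fin 3 → J2} (hx : ∀ i, CJ fun p => x p i)
    (ha : ∀ i, CJ fun p => a p i) (hb : ∀ i, CJ fun p => b p i) :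
    CJ fun p => PhG (x p) (a p) (b p) := by
  unfold PhG
  refine CJ.add (CJ.add ?_ ?_) ?_
  · refine CJ.mul ?_ ((ha 0).mul (hb 0))
    refine CJ.sub (CJ.add (CJ.add (CJ.sub (CJ.add (CJ.sub ?_ ?_) ?_) ?_) ?_) ?_) ?_
    · exact ((CJ.const _).mul (hx 1)).mul (hx 2)
    · exact (CJ.const _).mul ((hx 0).pow 2)
    · exact (CJ.const _).mul ((hx 1).pow 2)
    · exact (((CJ.const _).mul ((hx 0).pow 2)).mul (hx 1)).mul (hx 2)
    · exact (CJ.const _).mul ((hx 0).pow 4)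
    · exact ((CJ.const _).mul ((hx 0).pow 2)).mul ((hx 1).pow 2)
    · exact (CJ.const _).mul ((hx 1).pow 4)
  · refine CJ.smul (r := fun _ => (1/2 : ℝ)) ?_ continuous_const
    refine CJ.mul (((hx 0).mul (hx 2)).mul ?_) (((ha 0).mul (hb 1)).add ((ha 1).mul (hb 0)))
    exact (CJ.const _).sub ((CJ.const _).mul ((hx 0).pow 2))
  · refine CJ.mul (((hx 0).pow 2).mul ?_) ((ha 1).mul (hb 1))
    exact (CJ.const _).sub ((CJ.const _).mul ((hx 0).pow 2))

lemma continuous_Wf : Continuous Wf := by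
  have hx : Continuous fun p : ℝ × E3 × E3 => p.2.1 := by fun_prop
  have hX : Continuous fun p : ℝ × E3 × E3 => p.2.2 := by fun_prop
  have hn := continuous_cr hx hX
  have ha1 := continuous_a1 hx hX
  have ha2 := continuous_a2 hx hX
  have ha3 := continuous_a3 hx hX
  have hb1 := continuous_b1 hx hX
  have hb2 := continuous_b2 hx hX
  have hb3 := continuous_b3 hx hX
  have hBH : Continuous fun p : ℝ × E3 × E3 => BH p.2.1 p.2.2 :=
    (continuous_Hb hx hb1).add (continuous_Hb ha1 hn)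
  have hBF : Continuous fun p : ℝ × E3 × E3 => BF p.2.1 p.2.2 :=
    (continuous_Fb hx hb1).add (continuous_Fb ha1 hn)
  have hCH : Continuous fun p : ℝ × E3 × E3 => CH p.2.1 p.2.2 :=
    ((continuous_Hb hx hb2).add (continuous_const.mul (continuous_Hb hX hb1))).add (continuous_Hb ha2 hn)
  have hCF : Continuous fun p : ℝ × E3 × E3 => CF p.2.1 p.2.2 :=
    ((continuous_Fb hx hb2).add (continuous_const.mul (continuous_Fb hX hb1))).add (continuous_Fb ha2 hn)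
  have hDH : Continuous fun p : ℝ × E3 × E3 => DH p.2.1 p.2.2 :=
    ((continuous_Hb hx hb3).add (continuous_const.mul (continuous_Hb ha1 hb1))).add (continuous_Hb ha3 hn)
  have hDF : Continuous fun p : ℝ × E3 × E3 => DF p.2.1 p.2.2 :=
    ((continuous_Fb hx hb3).add (continuous_const.mul (continuous_Fb ha1 hb1))).add (continuous_Fb ha3 hn)
  have e1 := continuous_Hb hx hn
  have e2 := continuous_Hb hX hn
  have e3 := continuous_Fb hx hn
  have e4 := continuous_Fb hX hn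
  have e5 := continuous_Fb hn hb3
  have e6 := continuous_Fb hb1 hb1
  have hW1 : Continuous fun p : ℝ × E3 × E3 => W1 p.2.1 p.2.2 := by
    unfold W1; fun_prop
  have hW2 : Continuous fun p : ℝ × E3 × E3 => W2 p.2.1 p.2.2 := by
    unfold W2; fun_prop
  have hW3 : Continuous fun p : ℝ × E3 × E3 => W3 p.1 p.2.1 p.2.2 := by
    have hk : Continuous fun p : ℝ × E3 × E3 => p.1 := by fun_prop
    exact (cj_PhG (fun i => cj_Jx hk hx hX i) (fun i => cj_Jn hk hx hX i) (fun i => cj_Jn hk hx hX i)).c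
  unfold Wf
  fun_prop

/-! ### the value on the torus -/

lemma Jx_zero (x X : E3) (i : Fin 3) : Jx 0 x X i = ⟨x i, X i, -x i⟩ := by
  simp [Jx, jx1_eq, jx2_eq]

lemma Jn_zero (x X : E3) (i : Fin 3) : Jn 0 x X i = ⟨cr x X i, 0, 0⟩ := by
  simp [Jn, jn1_eq, jn2_eq]

/-- second derivative of `Φ₂` at `κ = 0`, in coordinates. -/
lemma W3_zero {x X : E3} {x0 x1 x2 y0 y1 y2 c s : ℝ} (hx0 : x 0 = x0) (hx1 : x 1 = x1) (hx2 : x 2 = x2)
    (hX0 : X 0 = y0) (hX1 : X 1 = y1) (hX2 : X 2 = y2) (n0 : cr x X 0 = c) (n1 : cr x X 1 = s) :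
    W3 0 x X =
      (6 * (-2 * x1 * x2 + 2 * y1 * y2) - 27 * (2 * y0 ^ 2 - 2 * x0 ^ 2) + 4 * (2 * y1 ^ 2 - 2 * x1 ^ 2)
        - 26 * ((2 * y0 ^ 2 - 2 * x0 ^ 2) * x1 * x2 + x0 ^ 2 * (-2 * x1 * x2 + 2 * y1 * y2)
            + 2 * (2 * x0 * y0) * (y1 * x2 + x1 * y2))
        + 30 * (12 * x0 ^ 2 * y0 ^ 2 - 4 * x0 ^ 4)
        + 8 * ((2 * y0 ^ 2 - 2 * x0 ^ 2) * x1 ^ 2 + x0 ^ 2 * (2 * y1 ^ 2 - 2 * x1 ^ 2)
            + 2 * (2 * x0 * y0) * (2 * x1 * y1))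
        - 4 * (12 * x1 ^ 2 * y1 ^ 2 - 4 * x1 ^ 4)) * (c * c)
      + 1/2 * (7 * (-2 * x0 * x2 + 2 * y0 * y2)
          - 22 * ((6 * x0 * y0 ^ 2 - 3 * x0 ^ 3) * x2 + 2 * (3 * x0 ^ 2 * y0) * y2 - x0 ^ 3 * x2)) * (2 * c * s)
      + (5 * (2 * y0 ^ 2 - 2 * x0 ^ 2) - 6 * (12 * x0 ^ 2 * y0 ^ 2 - 4 * x0 ^ 4)) * (s * s) := by
  subst hx0 hx1 hx2 hX0 hX1 hX2 n0 n1
  simp only [W3, PhG, Jx_zero, Jn_zero, pow_succ, pow_zero, one_mul, ← map_ofNat J2.C,
    J2.mul_a, J2.mul_b, J2.mul_c,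
    J2.add_a, J2.add_b, J2.add_c, J2.sub_a, J2.sub_b, J2.sub_c, J2.smul_c, J2.C_a, J2.C_b, J2.C_c]
  ring

lemma W1_zero {x X : E3} {u v s c : ℝ} (h1 : u ^ 2 + v ^ 2 = 1) (h2 : s ^ 2 + c ^ 2 = 1)
    (hx0 : x 0 = u * s) (hx1 : x 1 = -(u * c)) (hx2 : x 2 = v)
    (hX0 : X 0 = v * s) (hX1 : X 1 = -(v * c)) (hX2 : X 2 = -u)
    (n0 : cr x X 0 = c) (n1 : cr x X 1 = s) (n2 : cr x X 2 = 0) :
    Wf (0, x, X) = 2 * c ^ 2 + 2 * (c ^ 2 - s ^ 2) ^ 2 := by
  have e3 := W3_zero hx0 hx1 hx2 hX0 hX1 hX2 n0 n1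
  have e1 : Wf (0, x, X) = W1 x X + W3 0 x X := by simp [Wf]
  rw [e1, e3]
  simp only [W1, CF, CH, BF, BH, a1, a2, b1, b2, b3, pp, Hb_add_left, Hb_add_right, Hb_smul_left,
    Hb_smul_right, Fb_add_left, Fb_add_right, Fb_smul_left, Fb_smul_right]
  simp only [Hb, HbG, Fb, FbG, hx0, hx1, hx2, hX0, hX1, hX2, n0, n1, n2]
  linear_combination ((4)*c^2 + (-6)*s^2*c^2 + (2)*s^4 + (4)*v^2*c^2 + (-12)*v^2*c^4 + (44)*v^2*s^2*c^2 + (-8)*v^2*s^4 + (-40)*u*v*c^3 + (24)*u*v*c^5 + (64)*u*v*s^2*c + (-12)*u*v*s^2*c^3 + (-36)*u*v*s^4*c + (-16)*u^2*c^2 + (84)*u^2*c^4 + (-60)*u^2*c^6 + (-328)*u^2*s^2*c^2 + (228)*u^2*s^2*c^4 + (76)*u^2*s^4 + (228)*u^2*s^4*c^2 + (-60)*u^2*s^6) * h1 + ((-2)*c^2 + (16)*u*v*c^3 + (-36)*u*v*s^2*c + (20)*u^2*c^2 + (-56)*u^2*c^4 + (288)*u^2*s^2*c^2 + (-64)*u^2*s^4 + (-64)*u^3*v*c^3 + (96)*u^3*v*s^2*c + (-16)*u^4*c^2 + (80)*u^4*c^4 + (-384)*u^4*s^2*c^2 + (80)*u^4*s^4) * h2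

lemma torus {x X : E3} (hx : ‖x‖ = 1) (hX : ‖X‖ = 1) (hxX : ⟪x, X⟫ = 0) (hn : cr x X 2 = 0) :
    7/8 ≤ Wf (0, x, X) := by
  have hx' : x 0 ^ 2 + x 1 ^ 2 + x 2 ^ 2 = 1 := by
    have := EuclideanSpace.real_norm_sq_eq x
    rw [hx, Fin.sum_univ_three] at this
    linarith
  have hX' : X 0 ^ 2 + X 1 ^ 2 + X 2 ^ 2 = 1 := by
    have := EuclideanSpace.real_norm_sq_eq X
    rw [hX, Fin.sum_univ_three] at this
    linarith
  have hd : x 0 * X 0 + x 1 * X 1 + x 2 * X 2 = 0 := by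
    have := hxX
    rw [PiLp.inner_apply, Fin.sum_univ_three] at this
    simp at this
    linarith
  have n0 : cr x X 0 = x 1 * X 2 - x 2 * X 1 := by simp [cr]
  have n1 : cr x X 1 = x 2 * X 0 - x 0 * X 2 := by simp [cr]
  have n2 : cr x X 2 = x 0 * X 1 - x 1 * X 0 := by simp [cr]
  rw [n2] at hn
  set c := x 1 * X 2 - x 2 * X 1 with hc
  set s := x 2 * X 0 - x 0 * X 2 with hs
  have hcs : s ^ 2 + c ^ 2 = 1 := by
    rw [hc, hs]
    linear_combination (X 0 ^ 2 + X 1 ^ 2 + X 2 ^ 2) * hx' + hX'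
      - (x 0 * X 0 + x 1 * X 1 + x 2 * X 2) * hd - (x 0 * X 1 - x 1 * X 0) * hn
  have hxn : c * x 0 + s * x 1 = 0 := by
    rw [hc, hs]
    linear_combination (-x 2) * hn
  have a0 : x 0 = (s * x 0 - c * x 1) * s := by
    linear_combination (-x 0) * hcs + c * hxn
  have a1 : x 1 = -((s * x 0 - c * x 1) * c) := by
    linear_combination (-x 1) * hcs + s * hxn
  have hSC : (s * x 0 - c * x 1) ^ 2 + x 2 ^ 2 = 1 := by
    linear_combination hx' + (x 0 ^ 2 + x 1 ^ 2) * hcs - (c * x 0 + s * x 1) * hxn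
  have b0 : X 0 = x 2 * s := by
    rw [hs]
    linear_combination (-X 0) * hx' + x 0 * hd - (x 1) * hn
  have b1 : X 1 = -(x 2 * c) := by
    rw [hc]
    linear_combination (-X 1) * hx' + x 1 * hd + (x 0) * hn
  have b2 : X 2 = -(s * x 0 - c * x 1) := by
    rw [hc, hs]
    linear_combination (-X 2) * hx' + x 2 * hd
  have key := W1_zero hSC hcs a0 a1 rfl b0 b1 b2 n0 n1 (by rw [n2, hn])
  rw [key]
  have : s ^ 2 = 1 - c ^ 2 := by linarith
  rw [this]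
  nlinarith [sq_nonneg (c ^ 2 - 3/8)]

theorem key_identity :
    ∃ Wf : ℝ × E3 × E3 → ℝ, Continuous Wf ∧
      (∀ κ : ℝ, ∀ x X : E3, ‖x‖ = 1 → ‖X‖ = 1 → ⟪x, X⟫ = 0 →
        (QG κ (Jx κ x X) (Jn κ x X)).c = κ ^ 2 * Wf (κ, x, X)) ∧
      (∀ x X : E3, ‖x‖ = 1 → ‖X‖ = 1 → ⟪x, X⟫ = 0 → cr x X 2 = 0 → 7/8 ≤ Wf (0, x, X)) :=
  ⟨Wf, continuous_Wf, fun κ x X _ _ _ => QG_c κ x X, fun _ _ h1 h2 h3 h4 => torus h1 h2 h3 h4⟩

end Pool.Agent.Helper64.HP
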